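import Pool.Agent.H928.IB.Main
import Pool.Agent.H928.IB.Crit

/-!
# MP_6cbd4a_an, Q1: an indestructible Blaschke product which is not maximal

All notions are written out below: Blaschke products, indestructible Blaschke products,
`H^∞` critical sets, the extremal problem and maximal Blaschke products.

The function `F` is locally univalent but not injective.  It is the locally uniform limit of
functions `F_k` with `F_k' = exp p_k` which are analytic near the closed disc and bounded by `1`.
The step `F ↦ G` is `G' = F' exp g`, `g(z) = L u(q z^n) + b(z) (1 - E(z^n))` with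
`u = (4/π) arctan`, `n = ⌈e^L / L⌉`, `L` large: on half of every arc of length `2π/n` of the circle
`G` runs many times around circles of radius comparable to `1 - |F|` about `F`, on the other half
`G` is close to `F`.  This increases `∫ |F|²` by a fixed fraction of `∫ (1 - |F|)²` and halves
`∫ log 1/|T_a F|`, up to small errors, uniformly for `a` in compact sets.  In the limit the circle
means of `log |T_a F|` tend to `0` for every `a` in the disc, so every `T ∘ F` is a Blaschke product.
A maximal Blaschke product without critical points is an automorphism of the disc (Schwarz lemma).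
-/

set_option autoImplicit false

open Complex Metric Set
open scoped ComplexConjugate

namespace Pool.Agent.Results.MP_6cbd4a_an.IndestructibleNotMaximal

/-- The open unit disc. -/
abbrev disc : Set ℂ := Metric.ball (0 : ℂ) 1

/-- The factor `(|a| / a) (a - z) / (1 - conj a z)`. -/
noncomputable def fac (a z : ℂ) : ℂ := ((‖a‖ : ℝ) : ℂ) / a * ((a - z) / (1 - conj a * z))

/-- `B` is (on the disc) a Blaschke product
`e^{iθ} z^m ∏ (|a_i| / a_i) (a_i - z) / (1 - conj a_i z)` with `0 < |a_i| < 1` and
`∑ (1 - |a_i|) < ∞` (the countable index set may be empty, finite or infinite), and `B` is not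
constant on the disc. -/
def IsBlaschke (B : ℂ → ℂ) : Prop :=
  (∃ z ∈ disc, ∃ w ∈ disc, B z ≠ B w) ∧
  ∃ (θ : ℝ) (m : ℕ) (ι : Type) (_ : Countable ι) (a : ι → ℂ), (∀ i, a i ≠ 0 ∧ ‖a i‖ < 1) ∧
    (Summable fun i => 1 - ‖a i‖) ∧
    ∀ z ∈ disc, ∃ p : ℂ, HasProd (fun i => fac (a i) z) p ∧
      B z = Complex.exp (θ * Complex.I) * z ^ m * p

/-- The conformal automorphism `w ↦ e^{iφ} (w - a) / (1 - conj a w)` of the disc. -/
noncomputable def aut (φ : ℝ) (a w : ℂ) : ℂ :=
  Complex.exp (φ * Complex.I) * ((w - a) / (1 - conj a * w))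

/-- `B` is an indestructible Blaschke product: it is a Blaschke product and so is `T ∘ B` for
every conformal automorphism `T` of the disc. -/
def Indestructible (B : ℂ → ℂ) : Prop :=
  IsBlaschke B ∧ ∀ (φ : ℝ) (a : ℂ), a ∈ disc → IsBlaschke (fun z => aut φ a (B z))

/-- `f` is a bounded analytic function on the open unit disc. -/
def InHinf (f : ℂ → ℂ) : Prop :=
  DifferentiableOn ℂ f disc ∧ ∃ K : ℝ, ∀ z ∈ disc, ‖f z‖ ≤ K

/-- `m` is an `H^∞` critical set, given by its multiplicities: `m z` is the number of times the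
point `z` of the disc occurs. There is a nonconstant `f` in `H^∞` whose derivative vanishes at each
point `z` of the disc to order exactly `m z`. -/
def IsCritSet (m : ℂ → ℕ) : Prop :=
  ∃ f : ℂ → ℂ, InHinf f ∧ (∃ z ∈ disc, ∃ w ∈ disc, f z ≠ f w) ∧
    ∀ z ∈ disc, analyticOrderAt (deriv f) z = m z

/-- The functions of `H^∞` whose derivative vanishes at each point `z` of the disc to order at
least `m z`. -/
def InF (m : ℂ → ℕ) (f : ℂ → ℂ) : Prop :=
  InHinf f ∧ ∀ z ∈ disc, (m z : ℕ∞) ≤ analyticOrderAt (deriv f) z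

/-- `g` solves the extremal problem for `m`: among the `f` in `InF m` with `‖f‖_∞ ≤ 1` the real
part of `f^{(N+1)}(0)` is largest for `f = g`, where `N = m 0`. -/
def IsExtremal (m : ℂ → ℕ) (g : ℂ → ℂ) : Prop :=
  InF m g ∧ (∀ z ∈ disc, ‖g z‖ ≤ 1) ∧
    ∀ f : ℂ → ℂ, InF m f → (∀ z ∈ disc, ‖f z‖ ≤ 1) →
      (iteratedDeriv (m 0 + 1) f 0).re ≤ (iteratedDeriv (m 0 + 1) g 0).re

/-- `f` is a maximal Blaschke product: `f = T ∘ g` on the disc, where `g` solves the extremal
problem of some `H^∞` critical set and `T(w) = e^{iφ} (w - a) / (1 - conj a w)`, `|a| < 1`, is an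
automorphism of the disc. -/
def IsMaxBlaschke (f : ℂ → ℂ) : Prop :=
  ∃ m : ℂ → ℕ, IsCritSet m ∧ ∃ g : ℂ → ℂ, IsExtremal m g ∧
    ∃ (φ : ℝ) (a : ℂ), a ∈ disc ∧ ∀ z ∈ disc, f z = aut φ a (g z)

/-- There is an indestructible Blaschke product which is not a maximal Blaschke product. It can be
chosen with derivative without zeros in the disc, and not injective. -/
theorem result : ∃ F : ℂ → ℂ, Indestructible F ∧ ¬ IsMaxBlaschke F ∧
    (∀ z ∈ disc, deriv F z ≠ 0) ∧ ¬ InjOn F disc :=
  Pool.Agent.H928.IB.final Pool.Agent.H928.IB.limThm Pool.Agent.H928.IB.crit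
    Pool.Agent.H928.IB.maxb

end Pool.Agent.Results.MP_6cbd4a_an.IndestructibleNotMaximal
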